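import Pool.Agent.BER.StmtsE

set_option autoImplicit false

/-! # Row BLB of squad BER: every ball -/

namespace Pool.Agent.BER.H47

open Set Filter Topology MeasureTheory
open scoped InnerProductSpace ENNReal
open Pool.Agent.BE01 Pool.Agent.BEL Pool.Agent.BEF Pool.Agent.BEN Pool.Agent.BEH Pool.Agent.BEG
open Pool.Agent.BEO (Pl BB ev lap rho)

theorem blb (ksy : Pool.Agent.BEG.KsyStmt) (frg : Pool.Agent.BER.FrgStmt)
    (yas : Pool.Agent.BER.YasStmt) (nra : Pool.Agent.BER.NraStmt)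
    (gpa : Pool.Agent.BER.GpaStmt) (jsd : Pool.Agent.BER.JsdStmt)
    (syb : Pool.Agent.BER.SybStmt) (spb : Pool.Agent.BER.SpbStmt)
    (ine : Pool.Agent.BER.IneStmt) : Pool.Agent.BER.BlbStmt := by
  classical
  intro d p R a hd hd3 hp hR ha
  obtain ⟨hDom, hSym⟩ := syb.1 d R (by omega) hR
  obtain ⟨K, hK, hKi⟩ := ksy d (BB d R) (GO d) (by omega) hDom hSym
  have hpow : ∀ (b : ℕ) (f : Lp ℝ 2 (mu (BB d R))),
      (f =ᵐ[mu (BB d R)] fun x => (‖x‖ ^ 2) ^ b) → f ∈ K := by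
    intro b f hf
    exact (hKi f).2 (syb.2.2 d (BB d R) (fun r => (r ^ 2) ^ b) f hDom hSym hf)
  have hc : cd d ≠ 0 := by
    unfold cd
    have h1 : (d : ℝ) - 1 ≠ 0 := by
      have : (2 : ℝ) ≤ d := by exact_mod_cast hd
      linarith
    have h2 : (d : ℝ) - 3 ≠ 0 := by
      intro h
      apply hd3
      have h3 : (d : ℝ) = 3 := by linarith
      exact_mod_cast h3
    exact div_ne_zero (mul_ne_zero h1 h2) (by norm_num)
  -- the zeros
  let Z : Set ℝ := {x | 0 < x ∧ jd d x = 0}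
  obtain ⟨C, X0, hC, hX0, hY⟩ := yas (cd d)
  obtain ⟨-, -, -, -, -, y', hy'⟩ := jsd d hd
  obtain ⟨β, hβ⟩ := hY _ y' hy'
  have hZ : Zas (cd d) β Z := by
    refine ⟨C, X0, hC, hX0, ?_⟩
    intro x hx hx0
    refine hβ x hx0 ?_
    show x ^ (((d : ℝ) - 1) / 2) * jd d x = 0
    rw [hx.2, mul_zero]
  have hn1 : ∀ n : ℕ, ∃ X1 : ℝ, 2 ≤ n → ∀ x : ℝ, X1 ≤ x → ¬ (x ∈ Z ∧ (n : ℝ) * x ∈ Z) := by
    intro n
    by_cases hn : 2 ≤ n
    · obtain ⟨X1, h⟩ := nra (cd d) β Z hc hZ n hn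
      exact ⟨X1, fun _ => h⟩
    · exact ⟨0, fun h => absurd h hn⟩
  choose X1 hX1 using hn1
  set X : ℝ := ∑ n ∈ Finset.range (2 * p + 2), |X1 n| with hX
  have hXn : 0 ≤ X := Finset.sum_nonneg fun _ _ => abs_nonneg _
  have hXle : ∀ n : ℕ, n ≤ 2 * p + 1 → X1 n ≤ X := by
    intro n hn
    refine (le_abs_self _).trans ?_
    exact Finset.single_le_sum (f := fun n => |X1 n|) (fun _ _ => abs_nonneg _)
      (Finset.mem_range.2 (by omega))
  obtain ⟨l, hl, u, huK, hu0, hue⟩ := ine d (BB d R) K hd hDom hK hpow ((X / R) ^ 2)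
  have hl0 : 0 < l := lt_of_le_of_lt (sq_nonneg _) hl
  set x : ℝ := R * Real.sqrt l with hx
  have hsl : 0 < Real.sqrt l := Real.sqrt_pos.2 hl0
  have hx0 : 0 < x := mul_pos hR hsl
  have hxR : (x / R) ^ 2 = l := by
    rw [hx, mul_div_cancel_left₀ _ hR.ne', Real.sq_sqrt hl0.le]
  have hxX : X ≤ x := by
    have h1 : X / R < Real.sqrt l := (Real.lt_sqrt (div_nonneg hXn hR.le)).2 hl
    rw [div_lt_iff₀ hR] at h1
    rw [hx, mul_comm]
    exact h1.le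
  have hxZ : x ∈ Z := by
    refine ⟨hx0, ?_⟩
    by_contra h
    exact hu0 (spb d R x u hd hR hx0 ((hKi u).1 huK) (by rw [hxR]; exact hue) h)
  have hnZ : ∀ n : ℕ, 1 ≤ n → ¬ ((n : ℝ) * x ∈ Z) → ∀ u', Inv (BB d R) (GO d) u' →
      IsEig (BB d R) ((n : ℝ) ^ 2 * l) u' → u' = 0 := by
    intro n hn hnx u' hi he
    have hn0 : (0 : ℝ) < n := by exact_mod_cast hn
    have hnx0 : 0 < (n : ℝ) * x := mul_pos hn0 hx0
    refine spb d R ((n : ℝ) * x) u' hd hR hnx0 hi ?_ (fun h => hnx ⟨hnx0, h⟩)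
    have h1 : ((n : ℝ) * x / R) ^ 2 = (n : ℝ) ^ 2 * l := by
      rw [mul_div_assoc, mul_pow, hxR]
    rw [h1]
    exact he
  refine frg d (BB d R) (GO d) p a l u hd hDom hSym hp ha ((hKi u).1 huK) hu0 hue ?_ ?_
  · intro n _ h3 hn
    refine hnZ n (by omega) fun h => ?_
    exact hX1 n (by omega) x ((hXle n hn).trans hxX) ⟨hxZ, h⟩
  · intro J
    obtain ⟨N, hN⟩ := gpa (cd d) β Z hc hZ x p hx0
    by_cases h : ∃ n1 : ℕ, Odd n1 ∧ max J N < n1 ∧ n1 ≤ max J N + 2 * p ∧ (n1 : ℝ) * x ∈ Z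
    · obtain ⟨n1, ho, h1, h2, h3⟩ := h
      have hJ : J ≤ max J N := le_max_left _ _
      have hN' : N ≤ max J N := le_max_right _ _
      refine ⟨n1, by omega, ?_⟩
      intro n hn h4 h5
      refine hnZ n (by omega) fun h6 => ?_
      obtain ⟨r, hr⟩ := ho
      obtain ⟨t, ht⟩ := hn
      have h7 : n = n1 + 2 * (t - r) := by omega
      refine hN n1 (by omega) (t - r) (by omega) (by omega) ⟨h3, ?_⟩
      have h8 : (n : ℝ) = (n1 : ℝ) + 2 * ((t - r : ℕ) : ℝ) := by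
        rw [h7]
        push_cast
        ring
      rw [← h8]
      exact h6
    · refine ⟨max J N, le_max_left _ _, ?_⟩
      intro n hn h4 h5
      exact hnZ n (by omega) fun h6 => h ⟨n, hn, h4, h5, h6⟩

end Pool.Agent.BER.H47
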